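import Pool.Agent.Run7.h182.QS.Iface
import Pool.Agent.Run7.h630.VS.A1
import Pool.Agent.Run7.h630.VS.A2
import Pool.Agent.Run7.h182.VS.FR
import Pool.Agent.Run7.h182.VS.LK

/-!
# The bounds at polynomially large coupling in terms of the final definitions

Project QS (helper182), piece BND.
-/

set_option autoImplicit false
set_option linter.unusedSectionVars false
set_option linter.unusedVariables false
set_option linter.style.haveILetI false

open MeasureTheory Matrix Filter Topology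
open Run7.h4.YM Run7.h4.VS
open Run7.h182.QS

namespace Run7.h882.QS

/-- **piece BND** -/
theorem t_BND (hAB : S_AB) (hUP : S_UP) (hLO : S_LO) : S_BND := by
  intro N k _ hN hk _ _ μ _ _
  have hζ := om_prim (N := N) hk
  obtain ⟨P0, Q0, hs⟩ := Run7.h4.VS.exists_std hζ
  choose ix hix using fun j => exists_flux hζ j
  have hrel : ∀ j, (k : ZMod N) * (ix j : ℕ) = (j : ℕ) := fun j => flux_rel (hix j)
  have hku : IsUnit (k : ZMod N) := (ZMod.isUnit_iff_coprime k N).mpr hk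
  have hdvd : ∀ c j : ℕ, N ∣ c * j ↔ (c : ZMod N) * (ix j : ZMod N) = 0 := by
    intro c j
    rw [← ZMod.natCast_eq_zero_iff, Nat.cast_mul, ← hrel j]
    constructor
    · intro h
      have h1 : (k : ZMod N) * ((c : ZMod N) * (ix j : ZMod N)) = 0 := by
        rw [← h]; ring
      exact (hku.mul_right_eq_zero).mp h1
    · intro h
      have h1 : (c : ZMod N) * ((k : ZMod N) * (ix j : ZMod N)) =
          k * ((c : ZMod N) * (ix j : ZMod N)) := by ring
      rw [h1, h, mul_zero]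
  have hdvd1 : ∀ j : ℕ, N ∣ j ↔ N ∣ ix j := by
    intro j
    have h1 := hdvd 1 j
    rw [one_mul, Nat.cast_one, one_mul] at h1
    rw [h1, ZMod.natCast_eq_zero_iff]
  have hdvd2 : ∀ c j : ℕ, N ∣ c * j ↔ N ∣ c * ix j := by
    intro c j
    rw [hdvd, ← ZMod.natCast_eq_zero_iff, Nat.cast_mul]
  -- the label of the flux `k i`
  have hlab : ∀ i : ℕ, ((ix (k * i) : ℕ) : ZMod N) = (i : ZMod N) := by
    intro i
    have h3 := hrel (k * i)
    push_cast at h3
    exact hku.mul_left_cancel h3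
  have hki : ∀ c i : ℕ, N ∣ c * (k * i) ↔ N ∣ c * i := by
    intro c i
    rw [hdvd, hlab, ← ZMod.natCast_eq_zero_iff, Nat.cast_mul]
  obtain ⟨S, hS⟩ : ∃ S : ℕ → ℕ → ℝ, S = fun l j => if h : l = 0 then 0 else
      haveI : NeZero l := ⟨h⟩
      SF k P0 Q0 l (ix j) := ⟨_, rfl⟩
  have hSv : ∀ (l : ℕ) [NeZero l] (j : ℕ), S l j = SF k P0 Q0 l (ix j) := by
    intro l hl j
    rw [hS]
    beta_reduce
    rw [dif_neg hl.out]
  refine ⟨S, ⟨fun l j j' h => ?_, fun l _ j => ?_, ?_, fun ε hε => ?_, fun ε hε => ?_⟩⟩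
  · by_cases hl : l = 0
    · rw [hS]
      beta_reduce
      rw [dif_pos hl, dif_pos hl]
    · haveI : NeZero l := ⟨hl⟩
      rw [hSv, hSv]
      refine SF_congr hζ P0 Q0 ?_
      rw [← hrel j, ← hrel j'] at h
      exact hku.mul_left_cancel h
  · obtain ⟨F, lab, C, hfra⟩ := exists_fra (l := l) hζ (Run7.h182.VS.tFR Run7.h630.VS.tA1)
      (Run7.h182.VS.tLK Run7.h630.VS.tA2) hs
    have h1 := hfra.lim hs (ix j)
    rw [hSv]
    refine h1.congr fun p => ?_
    unfold Sm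
    congr 1
    ext E
    simp only [Set.mem_range]
    constructor
    · rintro ⟨U, rfl⟩
      exact ⟨U, action2_AT hζ (hix j) U⟩
    · rintro ⟨U, rfl⟩
      exact ⟨U, (action2_AT hζ (hix j) U).symm⟩
  · obtain ⟨A, B, hA, h⟩ := hAB N k hN hk hζ P0 Q0 hs
    refine ⟨A, B, hA, fun l _ j => ?_⟩
    rw [hSv]
    obtain ⟨h1, h2⟩ := h l (ix j)
    exact ⟨h1, fun hj => h2 fun h3 => hj ((hdvd1 j).mpr h3)⟩
  · obtain ⟨C, p, hC, h⟩ := hUP N k hN hk hζ P0 Q0 hs μ ε hε
    refine ⟨C, p, hC, fun l _ c T hT hTS β hβ m m' _ _ hm hm' hmβ hmβ' j hj => ?_⟩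
    rw [Zf_zero μ m m' hζ, Zf_eq μ hζ (hix j)]
    refine h l c T hT (fun i hi => ?_) β hβ m m' hm hm' hmβ hmβ' (ix j : ZMod N)
      (fun h0 => hj ((hdvd c j).mpr h0))
    have h1 := hTS (k * i) (fun hd => hi ((hki c i).1 hd))
    rw [hSv] at h1
    exact h1.trans (le_of_eq (SF_congr hζ P0 Q0 (hlab i)))
  · obtain ⟨C, p, hC, h⟩ := hLO N k hN hk hζ P0 Q0 hs μ ε hε
    refine ⟨C, p, hC, fun l _ c T hT => ?_⟩
    obtain ⟨j0, hj0, hj1⟩ := hT
    rw [hSv] at hj1
    obtain ⟨i, hi, h1⟩ := h l c T ⟨ix j0, fun h2 => hj0 ((hdvd2 c j0).2 h2), hj1⟩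
    refine ⟨k * i, fun h2 => hi ((hki c i).1 h2), fun β hβ m m' _ _ hm hm' => ?_⟩
    have h3 := h1 β hβ m m' hm hm'
    rw [Zf_zero μ m m' hζ, Zf_eq μ hζ (hix (k * i)), hlab i]
    exact h3

end Run7.h882.QS
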