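import Pool.Agent.Run7.h182.QS.Iface2

/-!
# The exponent of the string tension at polynomially large coupling

Project QS (helper182), piece RATE.
-/

set_option autoImplicit false
set_option linter.unusedSectionVars false
set_option linter.unusedVariables false
set_option linter.style.haveILetI false

open MeasureTheory Matrix Filter Topology
open Pool.Agent.Run7.h897.TW Pool.Agent.Run7.h897.ST
open Run7.h4.VS (Zf)
open Run7.h182.QS

namespace Run7.h882.QS

noncomputable section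

/-- the characters are bounded away from `1` -/
lemma ch_gap (N : ℕ) [NeZero N] : ∃ c1 : ℝ, 0 < c1 ∧ ∀ c j : ℕ, ¬ N ∣ c * j →
    c1 ≤ (1 - (ch N c (j : ZMod N)).re) / N := by
  have hN : (0 : ℝ) < N := by exact_mod_cast NeZero.pos N
  obtain ⟨g, hg⟩ : ∃ g : ZMod N → ℝ, g = fun r => if r = 0 then 1 else
    (1 - (ZMod.stdAddChar (N := N) r).re) / N := ⟨_, rfl⟩
  have hgpos : ∀ r, 0 < g r := by
    intro r
    rw [hg]
    beta_reduce
    split_ifs with h
    · norm_num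
    · have h0 : ZMod.stdAddChar (N := N) r ≠ 1 := by
        intro h1
        apply h
        rw [← AddChar.map_zero_eq_one (ZMod.stdAddChar (N := N))] at h1
        exact ZMod.injective_stdAddChar h1
      have h3 : (ZMod.stdAddChar (N := N) r).re ≠ 1 := by
        intro h4
        apply h0
        have h5 : ‖ZMod.stdAddChar (N := N) r‖ = 1 := AddChar.norm_apply _ r
        have h6 : (ZMod.stdAddChar (N := N) r).re ^ 2 + (ZMod.stdAddChar (N := N) r).im ^ 2 =
            1 := by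
          have := Complex.sq_norm (ZMod.stdAddChar (N := N) r)
          rw [h5, Complex.normSq_apply] at this
          nlinarith
        rw [h4] at h6
        have h7 : (ZMod.stdAddChar (N := N) r).im = 0 := by nlinarith
        exact Complex.ext h4 h7
      have h8 := re_le_one (ZMod.stdAddChar (N := N)) r
      have h9 := lt_of_le_of_ne h8 h3
      exact div_pos (by linarith) hN
  obtain ⟨r0, hr0⟩ := Finite.exists_min g
  refine ⟨g r0, hgpos r0, fun c j h => ?_⟩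
  have h1 := hr0 ((c * j : ℕ) : ZMod N)
  have h2 : ((c * j : ℕ) : ZMod N) ≠ 0 := by
    rw [Ne, ZMod.natCast_eq_zero_iff]
    exact h
  have h3 : g ((c * j : ℕ) : ZMod N) =
      (1 - (ZMod.stdAddChar (N := N) ((c * j : ℕ) : ZMod N)).re) / N := by
    rw [hg]
    beta_reduce
    rw [if_neg h2]
  rw [ch_nat, ← h3]
  exact h1

/-- the numerical conditions -/
lemma num_large {ε A c1 : ℝ} (N : ℕ) (hε : 0 < ε) (hA : 0 < A) (hc1 : 0 < c1) :
    ∃ b1 : ℝ, 1 ≤ b1 ∧ ∀ β, b1 ≤ β →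
      2 * N * Real.exp (-(β * (A / 2))) ≤ 1 / 2 ∧
      4 * N + 1 ≤ Real.exp (β * (ε / 2)) ∧
      2 / c1 ≤ Real.exp β ∧
      8 / c1 * β ^ 4 ≤ Real.exp (β * (ε / 2)) := by
  have h1 : ∀ᶠ β : ℝ in atTop, 2 * N * Real.exp (-(β * (A / 2))) ≤ 1 / 2 := by
    have h : Tendsto (fun β : ℝ => 2 * N * Real.exp (-(β * (A / 2)))) atTop
        (𝓝 (2 * N * 0)) := by
      refine Tendsto.const_mul _ (Real.tendsto_exp_atBot.comp ?_)
      exact tendsto_neg_atTop_atBot.comp (tendsto_id.atTop_mul_const (by positivity))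
    rw [mul_zero] at h
    exact h.eventually (ge_mem_nhds (by norm_num))
  have hexp : Tendsto (fun β : ℝ => Real.exp (β * (ε / 2))) atTop atTop :=
    Real.tendsto_exp_atTop.comp (tendsto_id.atTop_mul_const (by positivity))
  have h2 : ∀ᶠ β : ℝ in atTop, 4 * (N : ℝ) + 1 ≤ Real.exp (β * (ε / 2)) :=
    hexp.eventually_ge_atTop _
  have h3 : ∀ᶠ β : ℝ in atTop, 2 / c1 ≤ Real.exp β := Real.tendsto_exp_atTop.eventually_ge_atTop _
  have h4 : ∀ᶠ β : ℝ in atTop, 8 / c1 * β ^ 4 ≤ Real.exp (β * (ε / 2)) := by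
    have h : Tendsto (fun β : ℝ => (β * (ε / 2)) ^ 4 * Real.exp (-(β * (ε / 2)))) atTop (𝓝 0) :=
      (Real.tendsto_pow_mul_exp_neg_atTop_nhds_zero 4).comp
        (tendsto_id.atTop_mul_const (show (0 : ℝ) < ε / 2 by positivity))
    have hd : 0 < c1 / 8 * (ε / 2) ^ 4 := by positivity
    filter_upwards [h.eventually (ge_mem_nhds hd)] with β hβ
    have h5 := mul_le_mul_of_nonneg_right hβ (Real.exp_pos (β * (ε / 2))).le
    rw [mul_assoc, ← Real.exp_add, neg_add_cancel, Real.exp_zero, mul_one, mul_pow] at h5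
    have h6 : β ^ 4 * (ε / 2) ^ 4 ≤ (c1 / 8 * Real.exp (β * (ε / 2))) * (ε / 2) ^ 4 := by
      linarith
    have h7 := le_of_mul_le_mul_right h6 (by positivity)
    have h8 : 8 / c1 * β ^ 4 ≤ 8 / c1 * (c1 / 8 * Real.exp (β * (ε / 2))) :=
      mul_le_mul_of_nonneg_left h7 (by positivity)
    refine h8.trans (le_of_eq ?_)
    field_simp
  obtain ⟨b, hb⟩ := eventually_atTop.1 (h1.and (h2.and (h3.and h4)))
  exact ⟨max b 1, le_max_right _ _, fun β hβ => hb β ((le_max_left _ _).trans hβ)⟩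

/-- **piece RATE** -/
theorem t_RATE (hSOFT : S_SOFT) : S_RATE := by
  intro N k _ hN hk _ _ _ _ μ _ _ S hS ε hε
  haveI := mu6_prob μ
  haveI := mu6_haar μ
  haveI := right_inv'' (mu6 μ)
  haveI := inv_inv'' (mu6 μ)
  obtain ⟨A, B, hA, hAB⟩ := hS.ab
  have hN1 : (1 : ℝ) ≤ N := by
    have : 1 ≤ N := by omega
    exact_mod_cast this
  have hN0 : (0 : ℝ) < N := by linarith
  -- the constants
  obtain ⟨e1, he1⟩ : ∃ e1, e1 = min (min (ε / 2) (A / 2)) 1 := ⟨_, rfl⟩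
  have he1pos : 0 < e1 := by
    rw [he1]
    exact lt_min (lt_min (by positivity) (by positivity)) one_pos
  have he1ε : e1 ≤ ε / 2 := by
    rw [he1]
    exact (min_le_left _ _).trans (min_le_left _ _)
  have he1A : e1 ≤ A / 2 := by
    rw [he1]
    exact (min_le_left _ _).trans (min_le_right _ _)
  have he11 : e1 ≤ 1 := by
    rw [he1]
    exact min_le_right _ _
  obtain ⟨c1, hc1, hch⟩ := ch_gap N
  obtain ⟨p1, l1, hsoft⟩ := hSOFT N k hN hk μ S hS (1 / N) (by positivity) (by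
    rw [div_lt_div_iff_of_pos_right hN0]
    have := Real.pi_gt_three
    linarith)
  obtain ⟨C2, p2, hC2, hup⟩ := hS.up e1 he1pos
  obtain ⟨C3, p3, hC3, hlo⟩ := hS.lo e1 he1pos
  obtain ⟨b1, hb1, hnum⟩ := num_large N hε hA hc1
  obtain ⟨K, hK⟩ : ∃ K : ℝ, K = (|B| + 2) * N := ⟨_, rfl⟩
  have hB0 := abs_nonneg B
  have hK1 : 1 ≤ K := by rw [hK]; nlinarith
  obtain ⟨p, hp⟩ : ∃ p, p = p1 + p2 + p3 + 2 := ⟨_, rfl⟩
  refine ⟨p, l1 + C2 + C3 + ⌈b1⌉₊ + (⌈K⌉₊ + 1), fun l _ hl β hβ c T hc hT => ?_⟩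
  have hl1 : l1 ≤ l := by omega
  have hlC2 : (C2 : ℝ) ≤ l := by
    have : C2 ≤ l := by omega
    exact_mod_cast this
  have hlC3 : (C3 : ℝ) ≤ l := by
    have : C3 ≤ l := by omega
    exact_mod_cast this
  have hlb : b1 ≤ l := by
    have h1 : ⌈b1⌉₊ ≤ l := by omega
    have h2 : ((⌈b1⌉₊ : ℕ) : ℝ) ≤ l := by exact_mod_cast h1
    exact (Nat.le_ceil b1).trans h2
  have hlK : K + 1 ≤ l := by
    have h1 : ⌈K⌉₊ + 1 ≤ l := by omega
    have h2 : ((⌈K⌉₊ + 1 : ℕ) : ℝ) ≤ l := by exact_mod_cast h1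
    have h3 := Nat.le_ceil K
    push_cast at h2
    linarith
  have hl1' : (1 : ℝ) ≤ l := hb1.trans hlb
  have hpw : ∀ r : ℕ, r ≤ p → (l : ℝ) ^ r ≤ β := fun r hr =>
    (pow_le_pow_right₀ hl1' hr).trans hβ
  have hβl : (l : ℝ) ≤ β := by
    have := hpw 1 (by omega)
    rwa [pow_one] at this
  have hβ1 : 1 ≤ β := hl1'.trans hβl
  have hβ0 : 0 ≤ β := by linarith
  obtain ⟨n1, n2, n3, n4⟩ := hnum β (hlb.trans hβl)
  have hβC2 : (C2 : ℝ) * (l : ℝ) ^ p2 ≤ β := by
    calc (C2 : ℝ) * (l : ℝ) ^ p2 ≤ l * (l : ℝ) ^ p2 := by gcongr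
      _ = (l : ℝ) ^ (p2 + 1) := by ring
      _ ≤ β := hpw _ (by omega)
  have hβC3 : (C3 : ℝ) * (l : ℝ) ^ p3 ≤ β := by
    calc (C3 : ℝ) * (l : ℝ) ^ p3 ≤ l * (l : ℝ) ^ p3 := by gcongr
      _ = (l : ℝ) ^ (p3 + 1) := by ring
      _ ≤ β := hpw _ (by omega)
  -- the size
  obtain ⟨P, hP⟩ : ∃ P : ℕ, P = ⌈K * l * β⌉₊ := ⟨_, rfl⟩
  have hKl : 1 ≤ K * l := by nlinarith
  have hP1 : K * l * β ≤ P := hP ▸ Nat.le_ceil _
  have hP2 : (P : ℝ) < K * l * β + 1 := hP ▸ Nat.ceil_lt_add_one (by positivity)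
  have hPβ : β ≤ P := le_trans (by nlinarith) hP1
  have hPβ2 : (P : ℝ) ≤ β ^ 2 := by
    have h1 : K * l + 1 ≤ l ^ 2 := by nlinarith
    have h2 : (l : ℝ) ^ 2 ≤ β := hpw 2 (by omega)
    have h3 : (K * l + 1) * β ≤ β * β := by
      refine mul_le_mul_of_nonneg_right (h1.trans h2) hβ0
    nlinarith
  have hPn : ∀ n : ℕ, (n : ℝ) ≤ β → n ≤ P := fun n hn => by exact_mod_cast hn.trans hPβ
  have hP0 : 1 ≤ P := hPn 1 (by rw [Nat.cast_one]; exact hβ1)
  haveI : NeZero P := ⟨by omega⟩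
  haveI i2 : NeZero (2 * P) := ⟨by omega⟩
  have hA1 : l ^ p1 ≤ P := hPn _ (by push_cast; exact hpw p1 (by omega))
  have hPC2 : C2 * l ^ p2 ≤ P := hPn _ (by push_cast; exact hβC2)
  have hPC3 : C3 * l ^ p3 ≤ P := hPn _ (by push_cast; exact hβC3)
  obtain ⟨s1, s2⟩ := hsoft l hl1 β (hpw p1 (by omega)) (ch N c) P P hA1 hA1
  -- the action
  obtain ⟨⟨j0, hj0, hTj⟩, hTle⟩ := hT
  have hTA : A ≤ T := by
    rw [hTj]
    exact (hAB l j0).2 fun h => hj0 (Dvd.dvd.mul_left h c)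
  have hTB : T ≤ |B| := by
    rw [hTj]
    exact (hAB l j0).1.trans (le_abs_self B)
  have hT0 : 0 < T := by linarith
  -- the theory
  obtain ⟨w, hw⟩ : ∃ w, w = Pool.Agent.Run7.h871.TC.wE N l k β := ⟨_, rfl⟩
  have hb : w.Bd := hw ▸ Pool.Agent.Run7.h871.TC.wE_bd β
  have hsy : w.Sy := hw ▸ Pool.Agent.Run7.h871.TC.wE_sy β
  have hcn : Cn w (Pool.Agent.Run7.h871.UP.zc N) := hw ▸ Pool.Agent.Run7.h871.UP.zc_cn β
  rw [← hw] at s1 s2 ⊢
  have hZf : ∀ (a b j : ℕ) [NeZero a] [NeZero b], Zf a b l μ k j β =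
      ZT (mu6 μ) w (j : ZMod N) a b := fun a b j _ _ => by
    rw [hw]
    exact Zf_eq μ k j β
  have hZf0 : ∀ (a b : ℕ) [NeZero a] [NeZero b], Zf a b l μ k 0 β =
      ZT (mu6 μ) w 0 a b := fun a b _ _ => by
    rw [hZf, Nat.cast_zero]
  -- the error
  have hE : (P + P : ℝ) * Real.exp (-(2 * (1 / N / l) * (min P P : ℕ))) ≤
      Real.exp (-(β * (|B| + 2))) := by
    rw [min_self]
    have h1 : (|B| + 2) * β ≤ 1 / N / l * P := by
      have h2 : 1 / (N : ℝ) / l * (K * l * β) ≤ 1 / N / l * P :=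
        mul_le_mul_of_nonneg_left hP1 (by positivity)
      refine le_trans (le_of_eq ?_) h2
      rw [hK]
      have hl0 : (0 : ℝ) < l := by linarith
      field_simp
    have h3 : Real.exp (-(2 * (1 / N / l) * (P : ℝ))) ≤
        Real.exp (-(β * (|B| + 2))) * Real.exp (-(2 * β)) := by
      rw [← Real.exp_add, Real.exp_le_exp]
      nlinarith
    have h4 : (P + P : ℝ) * Real.exp (-(2 * β)) ≤ 1 := by
      have h5 := Real.quadratic_le_exp_of_nonneg (show 0 ≤ 2 * β by linarith)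
      have h6 : (P + P : ℝ) ≤ Real.exp (2 * β) := by nlinarith
      calc (P + P : ℝ) * Real.exp (-(2 * β)) ≤ Real.exp (2 * β) * Real.exp (-(2 * β)) := by
            gcongr
        _ = 1 := by rw [← Real.exp_add, add_neg_cancel, Real.exp_zero]
    calc (P + P : ℝ) * Real.exp (-(2 * (1 / N / l) * (P : ℝ))) ≤
        (P + P : ℝ) * (Real.exp (-(β * (|B| + 2))) * Real.exp (-(2 * β))) := by gcongr
      _ = Real.exp (-(β * (|B| + 2))) * ((P + P : ℝ) * Real.exp (-(2 * β))) := by ring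
      _ ≤ Real.exp (-(β * (|B| + 2))) * 1 := by gcongr
      _ = _ := mul_one _
  -- the defect
  obtain ⟨D, hD⟩ : ∃ D, D = De (mu6 μ) w (ch N c) (2 * P) (2 * P) := ⟨_, rfl⟩
  have hone := ZS_one_pos (μ := mu6 μ) (w := w) (a := 2 * P) (b := 2 * P) hb
  have h3 : ZS (mu6 μ) w (ch N c) (2 * P) (2 * P) / ZS (mu6 μ) w 1 (2 * P) (2 * P) = 1 - D := by
    rw [ZS_De (ch N c) hb, hD]
    exact mul_div_cancel_left₀ _ hone.ne'
  rw [h3] at s2
  have s3 := s2.trans hE
  have d0 : 0 ≤ D := hD ▸ De_nonneg (μ := mu6 μ) (a := 2 * P) (b := 2 * P) (ch N c) hb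
  have u1 : ∀ j : ZMod N, (ch N c) j ≠ 1 → ZT (mu6 μ) w j (2 * P) (2 * P) ≤
      Real.exp (-(β * (T - e1))) * ZT (mu6 μ) w 0 (2 * P) (2 * P) := by
    intro j hj
    have h5 := hup l c T hT0 (fun j hj => hTle ⟨j, hj, rfl⟩) β hβC2 P P hPC2 hPC2 hPβ2 hPβ2
      j.val (fun h6 => hj (by
        have := (ch_one_iff (N := N) c j.val).2 h6
        rwa [ZMod.natCast_zmod_val] at this))
    rw [hZf0, hZf, ZMod.natCast_zmod_val] at h5
    exact h5
  have d1 : D ≤ 2 * N * Real.exp (-(β * (T - e1))) :=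
    hD ▸ De_le (μ := mu6 μ) (a := 2 * P) (b := 2 * P) (ch N c) hb (Real.exp_pos _).le u1
  have d2 : D ≤ 1 / 2 := by
    refine d1.trans (le_trans ?_ n1)
    refine mul_le_mul_of_nonneg_left (Real.exp_le_exp.2 ?_) (by positivity)
    nlinarith
  obtain ⟨t1, t2⟩ := tens d0 d2 rfl s3
  have hP1' : (1 : ℝ) ≤ P := by exact_mod_cast hP0
  have hPP : (1 : ℝ) ≤ 4 * (P * P) := by nlinarith
  refine ⟨?_, ?_⟩
  · -- the lower bound
    obtain ⟨j1, hj1, hlow⟩ := hlo l c T ⟨j0, hj0, hTj.symm⟩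
    have h5 := hlow β hβC3 P P hPC3 hPC3
    rw [hZf0, hZf] at h5
    have d3 : (1 - (ch N c (j1 : ZMod N)).re) * Real.exp (-(β * (T + e1))) / N ≤ D :=
      hD ▸ De_ge (μ := mu6 μ) (a := 2 * P) (b := 2 * P) (ch N c) hb h5
        (fun j => ZT_le hb hsy hcn j hP0)
    have d4 : c1 * Real.exp (-(β * (T + e1))) ≤ D := by
      refine le_trans ?_ d3
      have := mul_le_mul_of_nonneg_right (hch c j1 hj1) (Real.exp_pos (-(β * (T + e1)))).le
      refine this.trans (le_of_eq ?_)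
      ring
    have h6 : Real.exp (-(β * (|B| + 2))) ≤ c1 / 2 * Real.exp (-(β * (T + e1))) := by
      have h7 : Real.exp (-(β * (|B| + 2))) * Real.exp β ≤ Real.exp (-(β * (T + e1))) := by
        rw [← Real.exp_add, Real.exp_le_exp]
        nlinarith
      have h8 : Real.exp (-(β * (|B| + 2))) * (2 / c1) ≤ Real.exp (-(β * (T + e1))) :=
        (mul_le_mul_of_nonneg_left n3 (Real.exp_pos _).le).trans h7
      have h9 := mul_le_mul_of_nonneg_left h8 (show 0 ≤ c1 / 2 by positivity)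
      refine le_trans (le_of_eq ?_) h9
      field_simp
    have h7 : c1 / 2 * Real.exp (-(β * (T + e1))) ≤
        sig (mu6 μ) w (ch N c) * (4 * (P * P)) := by linarith
    have h8 : Real.exp (-(β * (T + ε))) * (4 * (P * P)) ≤
        sig (mu6 μ) w (ch N c) * (4 * (P * P)) := by
      have h9 : (P : ℝ) * P ≤ β ^ 2 * β ^ 2 := by gcongr
      have h10 : Real.exp (-(β * (T + ε))) * Real.exp (β * (ε / 2)) ≤
          Real.exp (-(β * (T + e1))) := by
        rw [← Real.exp_add, Real.exp_le_exp]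
        nlinarith
      calc Real.exp (-(β * (T + ε))) * (4 * (P * P)) ≤
          Real.exp (-(β * (T + ε))) * (4 * (β ^ 2 * β ^ 2)) := by gcongr
        _ = c1 / 2 * (Real.exp (-(β * (T + ε))) * (8 / c1 * β ^ 4)) := by
            field_simp
            ring
        _ ≤ c1 / 2 * (Real.exp (-(β * (T + ε))) * Real.exp (β * (ε / 2))) := by gcongr
        _ ≤ c1 / 2 * Real.exp (-(β * (T + e1))) := by gcongr
        _ ≤ _ := h7
    exact le_of_mul_le_mul_right h8 (by linarith)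
  · -- the upper bound
    have h6 : Real.exp (-(β * (|B| + 2))) ≤ Real.exp (-(β * (T - e1))) := by
      rw [Real.exp_le_exp]
      nlinarith
    have h7 : (4 * N + 1) * Real.exp (-(β * (T - e1))) ≤ Real.exp (-(β * (T - ε))) := by
      calc (4 * N + 1) * Real.exp (-(β * (T - e1))) ≤
          Real.exp (β * (ε / 2)) * Real.exp (-(β * (T - e1))) := by gcongr
        _ ≤ _ := by
          rw [← Real.exp_add, Real.exp_le_exp]
          nlinarith
    have h8 : sig (mu6 μ) w (ch N c) * (4 * (P * P)) ≤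
        Real.exp (-(β * (T - ε))) * (4 * (P * P)) := by
      calc sig (mu6 μ) w (ch N c) * (4 * (P * P)) ≤
          (4 * N + 1) * Real.exp (-(β * (T - e1))) := by linarith
        _ ≤ Real.exp (-(β * (T - ε))) * 1 := by rw [mul_one]; exact h7
        _ ≤ _ := by gcongr
    exact le_of_mul_le_mul_right h8 (by linarith)

end

end Run7.h882.QS
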