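import Pool.Agent.Run7.h182.QS.Iface2
import Pool.Agent.Run7.h182.WL.Area

/-!
# The area law for one theory

Project QS (helper182), piece WIL. Only the positivity of the sectors is used from the soft law:
the finite size corrections of the rates of one sector are bounded by the log-convexity in the
second direction.
-/

set_option autoImplicit false
set_option linter.unusedSectionVars false
set_option linter.unusedVariables false
set_option linter.style.haveILetI false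

open MeasureTheory Matrix Filter Topology
open scoped ComplexConjugate

namespace Run7.h882.QS

open Pool.Agent.Run7.h897.FS Pool.Agent.Run7.h897.TW Pool.Agent.Run7.h897.ST
open Pool.Agent.Run7.h897.PC
open Run7.h4.YM (Link Site dir plaq line action twist polyakov)
open Run7.h4.VS (twist2 action2)
open Run7.h630.WL (SiteZ LinkZ dirZ per IsLimit side rect)
open Run7.h182.WL (Fr Zn)
open Run7.h182.QS

noncomputable section

/-- the rates in one direction, up to a constant -/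
lemma fam_bds {Z : (Fin 2 → ℕ) → ℝ} (h : Fam Z) : ∃ K : ℝ, 0 ≤ K ∧ ∀ p : ℕ, 1 ≤ p →
    (p : ℝ) * fe (fun n m => Z ![n, m]) ≤ ell (fun n => Z ![p, n]) ∧
      ell (fun n => Z ![p, n]) ≤ p * fe (fun n m => Z ![n, m]) + K := by
  have a2 := ts0_lim (F := fun n m => Z ![n, m]) (fun m hm => (fam0 h hm).toTS0)
    (fun n hn => (fam1 h hn).toTS0)
  refine ⟨psi (fun n => Real.exp (ell fun m => Z ![n, m])) 1, a2.psi_nonneg le_rfl,
    fun p hp => ?_⟩
  have h1 := a2.psi_nonneg hp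
  have h2 := a2.psi_anti le_rfl hp
  obtain ⟨x, hx⟩ : ∃ x, x = psi (fun n => Real.exp (ell fun m => Z ![n, m])) 1 := ⟨_, rfl⟩
  have hpp : psi (fun n => Real.exp (ell fun m => Z ![n, m])) p =
      ell (fun n => Z ![p, n]) - p * fe (fun n m => Z ![n, m]) := by
    unfold psi fe
    rw [Real.log_exp]
  rw [hpp] at h1 h2
  constructor <;> linarith

variable {N : ℕ} [NeZero N] [MeasurableSpace (S4 N)] [BorelSpace (S4 N)]
  [MeasurableSpace (S6 N)] [BorelSpace (S6 N)]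

/-- the rate of the partition function and the density of the free energy -/
lemma Ev_ge' {m l k : ℕ} [NeZero (2 * m)] [NeZero l] (μ : Measure (S4 N))
    [IsProbabilityMeasure μ] [μ.IsHaarMeasure] (β : ℝ)
    (hF : ∀ e, Fam (ZX (mu6 μ) (Pool.Agent.Run7.h871.TC.wE N l k β) (ch N e))) (hm : 1 ≤ m) :
    (m : ℝ) * fe (fun n m => ZX (mu6 μ) (Pool.Agent.Run7.h871.TC.wE N l k β) (ch N 0) ![n, m]) ≤
      Ev μ k l β m := by
  haveI := mu6_prob μ
  haveI := mu6_haar μ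
  haveI := right_inv'' (mu6 μ)
  haveI := inv_inv'' (mu6 μ)
  have hb : (Pool.Agent.Run7.h871.TC.wE N l k β).Bd := Pool.Agent.Run7.h871.TC.wE_bd β
  have hsy : (Pool.Agent.Run7.h871.TC.wE N l k β).Sy := Pool.Agent.Run7.h871.TC.wE_sy β
  have hcn : Cn (Pool.Agent.Run7.h871.TC.wE N l k β) (Pool.Agent.Run7.h871.UP.zc N) :=
    Pool.Agent.Run7.h871.UP.zc_cn β
  have ht := (EE_ts0 (m := m) (l := l) (k := k) μ β).tend'
  refine ge_of_tendsto ht ?_
  filter_upwards [eventually_ge_atTop 1] with q hq1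
  haveI : NeZero (2 * q) := ⟨by omega⟩
  have hq0 : (0 : ℝ) < q := by exact_mod_cast hq1
  have hpos : ∀ c, 0 < ZX (mu6 μ) (Pool.Agent.Run7.h871.TC.wE N l k β) (ch N c) ![m, q] :=
    fun c => (fam0 (hF c) hq1).pos m hm
  rw [le_div_iff₀ hq0, ← Zn_EE, Zn_eq, ZT_ex hb hsy, neg_zero]
  have e0 := ZT_inv (μ := mu6 μ) (a := 2 * m) (b := 2 * q) hb hsy hcn 0
  simp only [Nat.cast_zero, mul_zero, zero_div, Real.cos_zero, one_mul] at e0
  obtain ⟨K, -, hK⟩ := fam_bds (hF 0)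
  have h0 := (hK m hm).1
  have h1 := (fam1 (hF 0) hm).toTS0.ell_le hq1
  have h2 : ZX (mu6 μ) (Pool.Agent.Run7.h871.TC.wE N l k β) (ch N 0) ![m, q] ≤
      ZT (mu6 μ) (Pool.Agent.Run7.h871.TC.wE N l k β) 0 (2 * m) (2 * q) := by
    rw [e0]
    have e1 : ∀ c, ZS (mu6 μ) (Pool.Agent.Run7.h871.TC.wE N l k β) (ch N c) (2 * m) (2 * q) =
        ZX (mu6 μ) (Pool.Agent.Run7.h871.TC.wE N l k β) (ch N c) ![m, q] := fun c =>
      (ZX_eq (n := ![m, q]) (p := 2 * m) (q := 2 * q) rfl rfl).symm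
    simp only [e1]
    exact Finset.single_le_sum (f := fun c =>
      ZX (mu6 μ) (Pool.Agent.Run7.h871.TC.wE N l k β) (ch N c) ![m, q])
      (fun c _ => (hpos c).le) (Finset.mem_range.2 (NeZero.pos N))
  have h3 := Real.log_le_log (hpos 0) h2
  have h4 := mul_le_mul_of_nonneg_left h0 hq0.le
  linarith

/-- **The rate of two Polyakov loops in a representation, one theory.** -/
theorem W0one (l k : ℕ) [NeZero l] (μ : Measure (S4 N)) [IsProbabilityMeasure μ]
    [μ.IsHaarMeasure] (β : ℝ)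
    (hF : ∀ e, Fam (ZX (mu6 μ) (Pool.Agent.Run7.h871.TC.wE N l k β) (ch N e)))
    (h3 : ∀ c : ℕ, ¬ N ∣ c →
      0 < Pool.Agent.Run7.h897.TW.sig (mu6 μ) (Pool.Agent.Run7.h871.TC.wE N l k β) (ch N c)) :
    ∀ (d c : ℕ) [NeZero d] (ρ : S4 N →* unitaryGroup (Fin d) ℂ),
      Continuous ρ → Nality ρ c → ∀ (R : ℕ), 1 ≤ R → ∀ ε : ℝ, 0 < ε → ∃ M0 : ℕ,
      ∀ (m : ℕ) [NeZero (2 * m)], M0 ≤ m → ∃ C : ℝ, 0 < C ∧ ∀ (q : ℕ) [NeZero (2 * q)],
        Fr ρ (2 * q) (2 * m) l μ k β R ≤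
          C * Real.exp (q * (Ev μ k l β m - 2 *
            Pool.Agent.Run7.h897.TW.sig (mu6 μ) (Pool.Agent.Run7.h871.TC.wE N l k β) (ch N c) *
              R + ε)) := by
  haveI := mu6_prob μ
  haveI := mu6_haar μ
  haveI := right_inv'' (mu6 μ)
  haveI := inv_inv'' (mu6 μ)
  intro d c _ ρ hρ hc R hR ε hε
  obtain ⟨φ, hφ⟩ : ∃ φ : ℕ → ℝ, φ = fun e => fe fun n m =>
    ZX (mu6 μ) (Pool.Agent.Run7.h871.TC.wE N l k β) (ch N e) ![n, m] := ⟨_, rfl⟩
  obtain ⟨σ, hσ⟩ : ∃ σ : ℕ → ℝ, σ = fun e =>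
    Pool.Agent.Run7.h897.TW.sig (mu6 μ) (Pool.Agent.Run7.h871.TC.wE N l k β) (ch N e) :=
    ⟨_, rfl⟩
  have hs4' : ∀ e, 4 * σ e = φ 0 - φ e := fun e => by
    rw [hσ, hφ]
    beta_reduce
    unfold Pool.Agent.Run7.h897.TW.sig
    rw [ch_zero]
    ring
  have hσc : Pool.Agent.Run7.h897.TW.sig (mu6 μ) (Pool.Agent.Run7.h871.TC.wE N l k β) (ch N c) =
      σ c := by rw [hσ]
  rw [hσc]
  have h3' : ∀ c : ℕ, ¬ N ∣ c → 0 < σ c := fun c hc => by
    rw [hσ]
    exact h3 c hc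
  have hpos' : ∀ c ∈ Finset.range N, c ≠ 0 → 0 < σ c := by
    intro c hc hc0
    have hcN : ¬ N ∣ c := fun h => by
      have := Nat.le_of_dvd (Nat.pos_of_ne_zero hc0) h
      have := Finset.mem_range.1 hc
      omega
    exact h3' c hcN
  -- the constant
  have hKe : ∀ e : ℕ, ∃ K : ℝ, 0 ≤ K ∧ ∀ p : ℕ, 1 ≤ p →
      ell (fun n => ZX (mu6 μ) (Pool.Agent.Run7.h871.TC.wE N l k β) (ch N e) ![p, n]) ≤
        p * φ e + K := fun e => by
    obtain ⟨K, hK0, hK⟩ := fam_bds (hF e)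
    refine ⟨K, hK0, fun p hp => ?_⟩
    rw [hφ]
    exact (hK p hp).2
  choose Ke hKe0 hKe1 using hKe
  obtain ⟨K, hK⟩ : ∃ K, K = ∑ e ∈ Finset.range N, Ke e := ⟨_, rfl⟩
  have hK0 : 0 ≤ K := hK ▸ Finset.sum_nonneg fun e _ => hKe0 e
  have hKle : ∀ e, e < N → Ke e ≤ K := fun e he =>
    hK ▸ Finset.single_le_sum (fun i _ => hKe0 i) (Finset.mem_range.2 he)
  have hgr : ∀ e, e < N → ∀ p : ℕ, 1 ≤ p → ∃ C : ℝ, 0 < C ∧ ∀ q : ℕ, 1 ≤ q →
      ZX (mu6 μ) (Pool.Agent.Run7.h871.TC.wE N l k β) (ch N e) ![p, q] ≤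
        C * Real.exp (q * (p * φ e + K)) := by
    intro e he p hp
    have h0 := (fam1 (hF e) hp).toTS0
    obtain ⟨C, hC, h1⟩ := TS0.exp_le h0
    refine ⟨C, hC, fun q hq => (h1 q hq).trans ?_⟩
    refine mul_le_mul_of_nonneg_left (Real.exp_le_exp.2 ?_) hC.le
    refine mul_le_mul_of_nonneg_left ?_ (Nat.cast_nonneg q)
    have := hKe1 e p hp
    have := hKle e he
    linarith
  -- the scale
  obtain ⟨s, hs1⟩ := pow_unbounded_of_one_lt (K / ε) (one_lt_two)
  have hsε : K / (2 : ℝ) ^ s ≤ ε := by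
    rw [div_le_iff₀ (by positivity)]
    rw [div_lt_iff₀ hε] at hs1
    nlinarith
  obtain ⟨R1, hR1⟩ : ∃ R1, R1 = 2 ^ s * R := ⟨_, rfl⟩
  have hR1pos : 1 ≤ R1 := by
    rw [hR1]
    exact Nat.mul_pos (by positivity) hR
  -- the size
  have hM : ∀ᶠ m : ℕ in atTop, R1 + 1 ≤ m ∧ ∀ e ∈ Finset.range N, e ≠ 0 →
      (R1 : ℝ) * (4 * |σ c|) ≤ m * (4 * σ e) := by
    refine (eventually_ge_atTop _).and ?_
    rw [Filter.eventually_all_finset]
    intro e he
    by_cases he0 : e = 0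
    · exact Eventually.of_forall fun m h => absurd he0 h
    have h5 : Tendsto (fun m : ℕ => (m : ℝ) * (4 * σ e)) atTop atTop :=
      tendsto_natCast_atTop_atTop.atTop_mul_const (by
        have := hpos' e he he0
        positivity)
    filter_upwards [h5.eventually_ge_atTop (R1 * (4 * |σ c|))] with m h _ using h
  obtain ⟨M0, hM0⟩ := eventually_atTop.1 hM
  refine ⟨M0, fun m _ hm => ?_⟩
  obtain ⟨g1, g2⟩ := hM0 m hm
  have hEv := Ev_ge' (m := m) (l := l) (k := k) μ β hF (by omega)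
  have hEv' : (m : ℝ) * φ 0 ≤ Ev μ k l β m := by rw [hφ]; exact hEv
  -- the sectors
  obtain ⟨E1, hE1⟩ : ∃ E1, E1 = m * φ 0 - 2 * σ c * R1 + K := ⟨_, rfl⟩
  -- the density of the shifted vacuum
  have hsh : φ (sfc N c 0) = φ c := by
    have h5 : ∀ s : ZMod N, (ch N (sfc N c 0) s).re = (ch N c s).re := by
      intro s
      have h6 := ch_sfc c 0 s
      rw [ch_zero, AddChar.one_apply] at h6
      have h7 : ch N (sfc N c 0) s = conj (ch N c s) := by
        have h8 : ch N c s * conj (ch N c s) = 1 := by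
          rw [Complex.mul_conj, Complex.normSq_eq_norm_sq, AddChar.norm_apply]
          simp
        have h9 : ch N c s ≠ 0 := left_ne_zero_of_mul_eq_one h8
        apply mul_right_cancel₀ h9
        rw [h6, mul_comm, h8]
      rw [h7, Complex.conj_re]
    rw [hφ]
    beta_reduce
    congr 1
    funext n m
    unfold ZX ZS
    simp only [h5]
  have hle0 : ∀ e, φ e ≤ φ 0 := by
    intro e
    by_cases he : N ∣ e
    · have h5 : ch N e = ch N 0 := by
        unfold ch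
        rw [(ZMod.natCast_eq_zero_iff e N).2 he, Nat.cast_zero]
      rw [hφ]
      beta_reduce
      rw [h5]
    · have h6 := h3' e he
      have h7 := hs4' e
      linarith
  have hsecE : ∀ e ∈ Finset.range N, ∃ C, 0 < C ∧ ∀ q, 1 ≤ q →
      Real.sqrt (ZX (mu6 μ) (Pool.Agent.Run7.h871.TC.wE N l k β) (ch N e) ![2 * m - R1, q] *
        ZX (mu6 μ) (Pool.Agent.Run7.h871.TC.wE N l k β) (ch N (sfc N c e)) ![R1, q]) ≤
      C * Real.exp (q * E1) := by
    intro e he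
    obtain ⟨C, hC, k1⟩ := hgr e (Finset.mem_range.1 he) (2 * m - R1) (by omega)
    obtain ⟨D, hD, k2⟩ := hgr (sfc N c e) (sfc_lt c e) R1 hR1pos
    refine ⟨Real.sqrt (C * D), Real.sqrt_pos.2 (mul_pos hC hD), fun q hq => ?_⟩
    have hcast : ((2 * m - R1 : ℕ) : ℝ) = 2 * m - R1 := by
      rw [Nat.cast_sub (by omega)]
      push_cast
      ring
    have e2 : ((2 * m - R1 : ℕ) : ℝ) * φ e + K + (R1 * φ (sfc N c e) + K) ≤ 2 * E1 := by
      rw [hcast, hE1]
      have h4c := hs4' c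
      have hm0 : (0 : ℝ) ≤ m := Nat.cast_nonneg m
      have hR0 : (0 : ℝ) ≤ R1 := Nat.cast_nonneg R1
      by_cases he0 : e = 0
      · subst he0
        rw [hsh]
        have : (R1 : ℝ) * (4 * σ c) = R1 * (φ 0 - φ c) := by rw [h4c]
        nlinarith
      · have h5 := g2 e he he0
        have h6 := hs4' e
        have h7 := hle0 (sfc N c e)
        have h8 : (R1 : ℝ) * (4 * σ c) ≤ R1 * (4 * |σ c|) := by
          have := le_abs_self (σ c)
          gcongr
        have h9 : (m : ℝ) * (4 * σ e) ≤ (2 * m - R1) * (φ 0 - φ e) := by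
          rw [h6]
          have h10 : (R1 : ℝ) ≤ m := by
            have : R1 ≤ m := by omega
            exact_mod_cast this
          have h11 := hle0 e
          nlinarith
        have h12 : (R1 : ℝ) * φ (sfc N c e) ≤ R1 * φ 0 := mul_le_mul_of_nonneg_left h7 hR0
        nlinarith
    have e1 : Real.sqrt (C * D) * Real.exp (q * E1) =
        Real.sqrt (C * D * Real.exp (q * E1) ^ 2) := by
      rw [Real.sqrt_mul (show 0 ≤ C * D by positivity) (Real.exp _ ^ 2),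
        Real.sqrt_sq (Real.exp_pos _).le]
    rw [e1]
    refine Real.sqrt_le_sqrt ?_
    have k1' := k1 q hq
    have k2' := k2 q hq
    have hnn : 0 ≤ ZX (mu6 μ) (Pool.Agent.Run7.h871.TC.wE N l k β) (ch N (sfc N c e)) ![R1, q] :=
      ((fam0 (hF (sfc N c e)) hq).pos R1 hR1pos).le
    calc _ ≤ (C * Real.exp (q * (((2 * m - R1 : ℕ) : ℝ) * φ e + K))) *
          (D * Real.exp (q * (R1 * φ (sfc N c e) + K))) := mul_le_mul k1' k2' hnn (by positivity)
      _ = C * D * Real.exp (q * (((2 * m - R1 : ℕ) : ℝ) * φ e + K +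
          (R1 * φ (sfc N c e) + K))) := by
          rw [mul_add (q : ℝ) (((2 * m - R1 : ℕ) : ℝ) * φ e + K), Real.exp_add]
          ring
      _ ≤ C * D * Real.exp (q * E1) ^ 2 := by
          rw [← Real.exp_nat_mul]
          refine mul_le_mul_of_nonneg_left (Real.exp_le_exp.2 ?_) (by positivity)
          push_cast
          have : (0 : ℝ) ≤ q := Nat.cast_nonneg q
          nlinarith
  obtain ⟨C1, hC1, k3⟩ := sum_bd hsecE
  -- the two sequences
  obtain ⟨f, hf⟩ : ∃ f : ℕ → ℕ → ℝ, f = fun t q => if h : q ≠ 0 then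
      haveI : NeZero (2 * q) := ⟨by omega⟩
      Fr ρ (2 * q) (2 * m) l μ k β (2 ^ t * R) else 0 := ⟨_, rfl⟩
  have hfv : ∀ (t q : ℕ) [NeZero (2 * q)], f t q = Fr ρ (2 * q) (2 * m) l μ k β (2 ^ t * R) := by
    intro t q hq
    have h0 : q ≠ 0 := by
      have := hq.out
      omega
    rw [hf]
    beta_reduce
    rw [dif_pos h0]
  have hts := EE_ts0 (m := m) (l := l) (k := k) μ β
  obtain ⟨C0, hC0, k4⟩ := TS0.exp_le hts
  have hlt : ∀ t, t < s → 2 ^ t * R < m := by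
    intro t ht
    have h5 : 2 ^ t * R ≤ 2 ^ s * R := Nat.mul_le_mul_right _ (Nat.pow_le_pow_right (by norm_num) ht.le)
    rw [← hR1] at h5
    omega
  have hres := iter_dbl (f := f) (Z := EE (PM (mu6 μ) (Ls (2 * m) l))
      (kp (PM (mu6 μ) (Ls (2 * m) l))
        (tk0 (mu6 μ) (2 * m) (Pool.Agent.Run7.h871.TC.wE N l k β)))) (s := s) (C0 := C0)
    (Ev := Ev μ k l β m) (E1 := E1) hC0
    (fun q hq => ⟨(hts.pos q hq).le, k4 q hq⟩)
    (fun t ht q hq => by
      haveI : NeZero (2 * q) := ⟨by omega⟩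
      rw [hfv, hfv, ← Zn_EE]
      have h5 := Fr_dbl (q := q) (m := m) (l := l) μ hρ k β (R := 2 ^ t * R)
        (Nat.mul_pos (by positivity) hR) (hlt t ht)
      rw [show 2 ^ (t + 1) * R = 2 * (2 ^ t * R) by ring]
      exact h5)
    ⟨C1, hC1, fun q hq => by
      haveI : NeZero (2 * q) := ⟨by omega⟩
      rw [hfv, ← hR1]
      exact (Fr_sec (q := q) (L := 2 * m) (l := l) μ hρ hc k β (R := R1) hR1pos
        (by omega)).trans (k3 q hq)⟩ s le_rfl
  obtain ⟨C, hC, k5⟩ := hres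
  refine ⟨C, hC, fun q hq0 => ?_⟩
  have hq : 1 ≤ q := by
    have := hq0.out
    omega
  have k6 := k5 q hq
  rw [Nat.sub_self, hfv, pow_zero, one_mul] at k6
  refine k6.trans (mul_le_mul_of_nonneg_left (Real.exp_le_exp.2
    (mul_le_mul_of_nonneg_left ?_ (Nat.cast_nonneg q))) hC.le)
  have h2s : (0 : ℝ) < 2 ^ s := by positivity
  have hR1' : (R1 : ℝ) = 2 ^ s * R := by rw [hR1]; push_cast; ring
  have e5 : (E1 - Ev μ k l β m) / 2 ^ s ≤ (-(2 * σ c * R1) + K) / 2 ^ s := by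
    refine div_le_div_of_nonneg_right ?_ h2s.le
    rw [hE1]
    linarith
  have e6 : (-(2 * σ c * R1) + K) / 2 ^ s = -(2 * σ c * R) + K / 2 ^ s := by
    rw [hR1']
    field_simp
  linarith

end

open Run7.h182.WL in
/-- **piece WIL: the area law for one theory** -/
theorem t_WIL : S_WIL := by
  intro N l k _ _ hN hk _ _ _ _ μ _ _ β m A hm hsoft hpos ν hν c hc d ρ hρ hρc x T R
  haveI := mu6_prob μ
  haveI := mu6_haar μ
  haveI := right_inv'' (mu6 μ)
  haveI := inv_inv'' (mu6 μ)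
  have hb : (Pool.Agent.Run7.h871.TC.wE N l k β).Bd := Pool.Agent.Run7.h871.TC.wE_bd β
  have hsy : (Pool.Agent.Run7.h871.TC.wE N l k β).Sy := Pool.Agent.Run7.h871.TC.wE_sy β
  have hcn : Cn (Pool.Agent.Run7.h871.TC.wE N l k β) (Pool.Agent.Run7.h871.UP.zc N) :=
    Pool.Agent.Run7.h871.UP.zc_cn β
  have hF : ∀ e, Fam (ZX (mu6 μ) (Pool.Agent.Run7.h871.TC.wE N l k β) (ch N e)) := by
    intro e
    obtain ⟨p, hp⟩ : ∃ p, p = max A 2 := ⟨_, rfl⟩
    have hp2 : 2 ≤ p := hp ▸ le_max_right _ _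
    haveI : NeZero (2 * p) := ⟨by omega⟩
    have h1 := (hsoft (ch N e) p p (hp ▸ le_max_left _ _) (hp ▸ le_max_left _ _)).1
    refine famX hb hsy hcn (ch N e) hp2 ?_
    rw [ZX_eq (p := 2 * p) (q := 2 * p) rfl rfl]
    exact h1
  have hW := W0one l k μ β hF hpos
  haveI := hν.prob
  rcases Nat.eq_zero_or_pos d with rfl | hd
  · have : ∀ V : LinkZ l → S4 N, trace (ρ (rect V x T R)).1 = 0 := fun V => by
      simp [Matrix.trace]
    simp [this]
  haveI : NeZero d := ⟨by omega⟩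
  have htriv : (∀ V : LinkZ l → S4 N, rect V x T R = 1) → (T : ℝ) * R = 0 →
      ‖∫ V, trace (ρ (rect V x T R)).1 ∂ν‖ ≤ d * Real.exp
        (-(Pool.Agent.Run7.h897.TW.sig (mu6 μ) (Pool.Agent.Run7.h871.TC.wE N l k β) (ch N c) *
          (T * R))) := by
    intro h4 h5
    simp only [h4, map_one, h5, mul_zero, neg_zero, Real.exp_zero, mul_one]
    have h6 : trace (1 : unitaryGroup (Fin d) ℂ).1 = (d : ℂ) := by
      have : (1 : unitaryGroup (Fin d) ℂ).1 = (1 : Matrix (Fin d) (Fin d) ℂ) := rfl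
      rw [this, trace_one, Fintype.card_fin]
    rw [h6]
    simp
  rcases Nat.eq_zero_or_pos T with rfl | hT
  · exact htriv (fun V => Run7.h182.WL.rect_zero_left V x R) (by simp)
  rcases Nat.eq_zero_or_pos R with rfl | hR
  · exact htriv (fun V => Run7.h182.WL.rect_zero_right V x T) (by simp)
  have hcore := Run7.h182.WL.core μ hk hν hρ x (a := T) (b := R) hT (s :=
    Pool.Agent.Run7.h897.TW.sig (mu6 μ) (Pool.Agent.Run7.h871.TC.wE N l k β) (ch N c) * R)
    fun δ hδ => by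
    obtain ⟨M0, hM0⟩ := hW d c ρ hρ (fun z w h => hρc z w h) R hR δ hδ
    refine ⟨M0, fun m' hm' => ?_⟩
    obtain ⟨C, hC, hF⟩ := hM0 (m' + 1) (by omega)
    refine ⟨Pool.Agent.Run7.h897.PC.Ev μ k l β (m' + 1), C,
      Pool.Agent.Run7.h897.PC.Ev_ratio μ β, fun q => ?_⟩
    have h4 := hF (q + 1)
    rw [← mul_assoc (2 : ℝ)]
    exact h4
  refine hcore.trans (le_of_eq ?_)
  congr 2
  ring

end Run7.h882.QS
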